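import Mathlib

namespace Pool.Agent.Results.MP_ba75bf_co.IdealChomp

open Polynomial

section Game
variable {R : Type*} [CommRing R]

/-- The ideal reached in the Ideal Chomp game on `R` after the first player has made the moves
listed in `h` (most recent move first) and the second player has answered each of them following
the strategy `σ` (a function of the history of the first player's moves). -/
def idealAfter (σ : List R → R) : List R → Ideal R
  | [] => ⊥
  | a :: h => idealAfter σ h ⊔ Ideal.span {a} ⊔ Ideal.span {σ (a :: h)}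

/-- The list `[x (n-1), ..., x 0]` of the first `n` moves of the first player, when the
sequence of her moves is `x`. -/
def hist (x : ℕ → R) : ℕ → List R
  | 0 => []
  | n + 1 => x n :: hist x n

/-- The second player has a winning strategy `σ`: for every sequence `x` of moves of the first
player there is a (finite) stage `N` such that before stage `N` all replies of the second player
were legal (outside of the current ideal) and did not produce the unit ideal, and at stage `N` the
first player either makes an illegal move or produces the unit ideal (and so loses). -/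
def SecondPlayerWins (R : Type*) [CommRing R] : Prop :=
  ∃ σ : List R → R, ∀ x : ℕ → R, ∃ N : ℕ,
    (∀ n < N, σ (hist x (n + 1)) ∉ idealAfter σ (hist x n) ⊔ Ideal.span {x n} ∧
      idealAfter σ (hist x (n + 1)) ≠ ⊤) ∧
    (x N ∈ idealAfter σ (hist x N) ∨ idealAfter σ (hist x N) ⊔ Ideal.span {x N} = ⊤)

/-- The player to move at `I` loses after at most `n` further full rounds. -/
def LoseN : ℕ → Ideal R → Prop
  | 0, I => ∀ a, a ∉ I → I ⊔ Ideal.span {a} = ⊤
  | n + 1, I => ∀ a, a ∉ I → I ⊔ Ideal.span {a} = ⊤ ∨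
      ∃ b, b ∉ I ⊔ Ideal.span {a} ∧ I ⊔ Ideal.span {a} ⊔ Ideal.span {b} ≠ ⊤ ∧
        LoseN n (I ⊔ Ideal.span {a} ⊔ Ideal.span {b})

lemma LoseN.succ : ∀ (n : ℕ) (I : Ideal R), LoseN n I → LoseN (n + 1) I
  | 0, _, h => fun a ha => Or.inl (h a ha)
  | n + 1, _, h => fun a ha => by
      rcases h a ha with h1 | ⟨b, hb, hb2, hb3⟩
      · exact Or.inl h1
      · exact Or.inr ⟨b, hb, hb2, LoseN.succ n _ hb3⟩

lemma LoseN.mono {m n : ℕ} (hmn : m ≤ n) {I : Ideal R} (h : LoseN m I) : LoseN n I := by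
  induction n, hmn using Nat.le_induction with
  | base => exact h
  | succ n _ ih => exact LoseN.succ n _ ih

def Good (I : Ideal R) (a b : R) (n : ℕ) : Prop :=
  b ∉ I ⊔ Ideal.span {a} ∧ I ⊔ Ideal.span {a} ⊔ Ideal.span {b} ≠ ⊤ ∧
    LoseN n (I ⊔ Ideal.span {a} ⊔ Ideal.span {b})

open Classical in
noncomputable def reply (I : Ideal R) (a : R) : R :=
  if h : ∃ n, ∃ b, Good I a b n then (Nat.find_spec h).choose else 0

lemma reply_good (I : Ideal R) (a : R) {n : ℕ} (h : ∃ b, Good I a b n) :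
    Good I a (reply I a) n := by
  classical
  have h' : ∃ n, ∃ b, Good I a b n := ⟨n, h⟩
  have h1 : Good I a (reply I a) (Nat.find h') := by
    unfold reply
    rw [dif_pos h']
    exact (Nat.find_spec h').choose_spec
  exact ⟨h1.1, h1.2.1, LoseN.mono (Nat.find_min' h' h) h1.2.2⟩

noncomputable def Pos : List R → Ideal R
  | [] => ⊥
  | a :: h => Pos h ⊔ Ideal.span {a} ⊔ Ideal.span {reply (Pos h) a}

noncomputable def strat : List R → R
  | [] => 0
  | a :: h => reply (Pos h) a

lemma idealAfter_strat (h : List R) : idealAfter strat h = Pos h := by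
  induction h with
  | nil => rfl
  | cons a h ih => simp only [idealAfter, Pos, strat, ih]

lemma play_aux (x : ℕ → R) : ∀ (m k : ℕ), LoseN m (Pos (hist x k)) → ∃ N, k ≤ N ∧
    (∀ n, k ≤ n → n < N → strat (hist x (n + 1)) ∉ Pos (hist x n) ⊔ Ideal.span {x n} ∧
      Pos (hist x (n + 1)) ≠ ⊤) ∧
    (x N ∈ Pos (hist x N) ∨ Pos (hist x N) ⊔ Ideal.span {x N} = ⊤) := by
  intro m
  induction m with
  | zero =>
    intro k hk
    refine ⟨k, le_rfl, fun n h1 h2 => absurd h1 (by omega), ?_⟩
    by_cases hx : x k ∈ Pos (hist x k)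
    · exact Or.inl hx
    · exact Or.inr (hk _ hx)
  | succ m ih =>
    intro k hk
    by_cases hx : x k ∈ Pos (hist x k)
    · exact ⟨k, le_rfl, fun n h1 h2 => absurd h1 (by omega), Or.inl hx⟩
    rcases hk _ hx with h1 | h1
    · exact ⟨k, le_rfl, fun n h1 h2 => absurd h1 (by omega), Or.inr h1⟩
    have hg := reply_good (Pos (hist x k)) (x k) h1
    have hP : Pos (hist x (k + 1)) =
      Pos (hist x k) ⊔ Ideal.span {x k} ⊔ Ideal.span {reply (Pos (hist x k)) (x k)} := rfl
    obtain ⟨N, hN1, hN2, hN3⟩ := ih (k + 1) (by rw [hP]; exact hg.2.2)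
    refine ⟨N, by omega, ?_, hN3⟩
    intro n h2 h3
    rcases Nat.eq_or_lt_of_le h2 with h4 | h4
    · subst h4
      refine ⟨hg.1, ?_⟩
      rw [hP]
      exact hg.2.1
    · exact hN2 n h4 h3

theorem wins_of (h0 : ∀ a : R, a ≠ 0 → Ideal.span {a} ≠ ⊤ →
    ∃ n b, b ∉ Ideal.span {a} ∧ Ideal.span {a} ⊔ Ideal.span {b} ≠ ⊤ ∧
      LoseN n (Ideal.span {a} ⊔ Ideal.span {b})) : SecondPlayerWins R := by
  refine ⟨strat, fun x => ?_⟩
  simp only [idealAfter_strat]
  by_cases h1 : x 0 ∈ Pos (hist x 0)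
  · exact ⟨0, fun n hn => absurd hn (by omega), Or.inl h1⟩
  by_cases h2 : Pos (hist x 0) ⊔ Ideal.span {x 0} = ⊤
  · exact ⟨0, fun n hn => absurd hn (by omega), Or.inr h2⟩
  have hb : Pos (hist x 0) = (⊥ : Ideal R) := rfl
  rw [hb] at h1 h2
  rw [bot_sup_eq] at h2
  obtain ⟨n, b, h3, h4, h5⟩ := h0 (x 0) (by simpa using h1) h2
  have hg := reply_good (⊥ : Ideal R) (x 0) (n := n) ⟨b, by
    unfold Good; rw [bot_sup_eq]; exact ⟨h3, h4, h5⟩⟩
  have hP : Pos (hist x (0 + 1)) =
      ⊥ ⊔ Ideal.span {x 0} ⊔ Ideal.span {reply ⊥ (x 0)} := rfl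
  obtain ⟨N, hN1, hN2, hN3⟩ := play_aux x n (0 + 1) (by rw [hP]; exact hg.2.2)
  refine ⟨N, ?_, hN3⟩
  intro k hk
  rcases Nat.eq_zero_or_pos k with h6 | h6
  · subst h6
    refine ⟨hg.1, ?_⟩
    rw [hP]
    exact hg.2.1
  · exact hN2 k h6 hk

end Game


set_option linter.unusedSectionVars false

section Ring
variable {K : Type*} [Field K] [CharZero K]

/-- The ring: polynomials `f` over `K` with `f'(0) = 0`, `f(1) ∈ S` and `f(2) ∈ ℚ`. -/
def A (S : Subring K) : Subring K[X] where
  carrier := {f | f.coeff 1 = 0 ∧ f.eval 1 ∈ S ∧ f.eval 2 ∈ (algebraMap ℚ K).range}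
  mul_mem' := by
    rintro f g ⟨h1, h2, h3⟩ ⟨h4, h5, h6⟩
    refine ⟨?_, ?_, ?_⟩
    · rw [coeff_mul, Finset.Nat.antidiagonal_succ]
      simp [h1, h4]
    · rw [eval_mul]; exact S.mul_mem h2 h5
    · rw [eval_mul]; exact Subring.mul_mem _ h3 h6
  one_mem' := by
    refine ⟨?_, ?_, ?_⟩
    · rw [coeff_one]; simp
    · rw [eval_one]; exact S.one_mem
    · rw [eval_one]; exact Subring.one_mem _
  add_mem' := by
    rintro f g ⟨h1, h2, h3⟩ ⟨h4, h5, h6⟩
    refine ⟨?_, ?_, ?_⟩
    · rw [coeff_add, h1, h4, add_zero]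
    · rw [eval_add]; exact S.add_mem h2 h5
    · rw [eval_add]; exact Subring.add_mem _ h3 h6
  zero_mem' := by
    refine ⟨?_, ?_, ?_⟩
    · rw [coeff_zero]
    · rw [eval_zero]; exact S.zero_mem
    · rw [eval_zero]; exact Subring.zero_mem _
  neg_mem' := by
    rintro f ⟨h1, h2, h3⟩
    refine ⟨?_, ?_, ?_⟩
    · rw [coeff_neg, h1, neg_zero]
    · rw [eval_neg]; exact S.neg_mem h2
    · rw [eval_neg]; exact Subring.neg_mem _ h3

lemma mem_A {S : Subring K} {f : K[X]} : f ∈ A S ↔
    f.coeff 1 = 0 ∧ f.eval 1 ∈ S ∧ f.eval 2 ∈ (algebraMap ℚ K).range := Iff.rfl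

/-- `w = (X - 1)(X - 2)` -/
noncomputable def w : K[X] := (X - C 1) * (X - C 2)

lemma w_eval_one : (w : K[X]).eval 1 = 0 := by simp [w]
lemma w_eval_two : (w : K[X]).eval 2 = 0 := by simp [w]
lemma w_eval (c : K) : (w : K[X]).eval c = (c - 1) * (c - 2) := by simp [w]

lemma memA_of_w {S : Subring K} {f : K[X]} (h1 : f.coeff 1 = 0) (h2 : w ∣ f) : f ∈ A S := by
  obtain ⟨p, rfl⟩ := h2
  refine ⟨h1, ?_, ?_⟩
  · rw [eval_mul, w_eval_one, zero_mul]; exact S.zero_mem
  · rw [eval_mul, w_eval_two, zero_mul]; exact Subring.zero_mem _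

lemma coeff_one_of_sq {f : K[X]} (h : X ^ 2 ∣ f) : f.coeff 1 = 0 := by
  rw [X_pow_dvd_iff] at h
  exact h 1 (by norm_num)

lemma memA_of_Xw {S : Subring K} {f : K[X]} (h1 : X ^ 2 ∣ f) (h2 : w ∣ f) : f ∈ A S :=
  memA_of_w (coeff_one_of_sq h1) h2

/-- the ideals `J m` -/
noncomputable def J (S : Subring K) (m : ℕ) : Ideal (A S) :=
  Ideal.comap (A S).subtype (Ideal.span {(X : K[X]) ^ (2 * m)})

lemma mem_J {S : Subring K} {m : ℕ} {f : A S} : f ∈ J S m ↔ (X : K[X]) ^ (2 * m) ∣ (f : K[X]) := by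
  unfold J
  rw [Ideal.mem_comap, Ideal.mem_span_singleton]
  rfl

lemma J_anti {S : Subring K} {m m' : ℕ} (h : m' ≤ m) : J S m ≤ J S m' := by
  intro f hf
  rw [mem_J] at hf ⊢
  exact dvd_trans (pow_dvd_pow _ (by omega)) hf

lemma J_ne_top {S : Subring K} {m : ℕ} (h : 1 ≤ m) : J S m ≠ ⊤ := by
  intro h1
  have h2 : (1 : A S) ∈ J S m := by rw [h1]; trivial
  rw [mem_J] at h2
  have h3 : ((1 : A S) : K[X]).coeff 0 = 0 := by
    rw [X_pow_dvd_iff] at h2
    exact h2 0 (by omega)
  simp at h3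

/-- evaluation at a point -/
noncomputable def ev (S : Subring K) (c : K) : A S →+* K := (evalRingHom c).comp (A S).subtype

lemma ev_apply (S : Subring K) (c : K) (f : A S) : ev S c f = (f : K[X]).eval c := rfl

lemma ev_surj (S : Subring K) (c : K) (h0 : c ≠ 0) (h1 : c ≠ 1) (h2 : c ≠ 2) :
    Function.Surjective (ev S c) := by
  intro y
  have hw : (X ^ 2 * w : K[X]).eval c ≠ 0 := by
    rw [eval_mul, w_eval]
    simp [sub_eq_zero, h0, h1, h2]
  refine ⟨⟨X ^ 2 * w * C (y / (X ^ 2 * w : K[X]).eval c), memA_of_Xw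
    ⟨w * C (y / (X ^ 2 * w : K[X]).eval c), by ring⟩
    ⟨X ^ 2 * C (y / (X ^ 2 * w : K[X]).eval c), by ring⟩⟩, ?_⟩
  rw [ev_apply]
  simp only
  rw [eval_mul, eval_C]
  field_simp

/-- membership in an ideal of `A S` from a polynomial identity -/
lemma mem_of_eq {S : Subring K} {I : Ideal (A S)} {x : A S} (hx : x ∈ I) {f : A S} {r : K[X]}
    (hr : r ∈ A S) (h : (f : K[X]) = (x : K[X]) * r) : f ∈ I := by
  have : f = x * ⟨r, hr⟩ := Subtype.ext h
  rw [this]
  exact I.mul_mem_right _ hx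

theorem cusp_reply {S : Subring K} (a : A S) (ha0 : a ≠ 0) (ha : (X : K[X]) ∣ (a : K[X])) :
    ∃ (b : A S) (m' i : ℕ), 1 ≤ m' ∧ 2 * m' ≤ i ∧ (X : K[X]) ^ i ∣ a ∧
      (∀ n, (X : K[X]) ^ n ∣ a → n ≤ i) ∧
      Ideal.span {a} ⊔ Ideal.span {b} = J S m' ∧
      ∀ m, i < 2 * m → b ∉ J S m ⊔ Ideal.span {a} := by
  obtain ⟨a, haA⟩ := a
  have ha0' : a ≠ 0 := fun h => ha0 (Subtype.ext h)
  simp only at ha ⊢
  obtain ⟨g, hg, hg0⟩ := exists_eq_pow_rootMultiplicity_mul_and_not_dvd a ha0' 0
  rw [C_0, sub_zero] at hg hg0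
  obtain ⟨i, hi⟩ : ∃ i, i = rootMultiplicity 0 a := ⟨_, rfl⟩
  rw [← hi] at hg
  have hgc : g.coeff 0 ≠ 0 := fun h => hg0 (X_dvd_iff.mpr h)
  have hi1 : 2 ≤ i := by
    by_contra hcon
    have : i = 0 ∨ i = 1 := by omega
    rcases this with h | h
    · subst h
      rw [hg, pow_zero, one_mul] at ha
      exact hg0 ha
    · have h1 : a.coeff 1 = 0 := haA.1
      rw [hg, h, pow_one, coeff_X_mul] at h1
      exact hgc h1
  have hidvd : X ^ i ∣ a := ⟨g, hg⟩
  have hmax : ∀ n, (X : K[X]) ^ n ∣ a → n ≤ i := by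
    intro n hn
    by_contra hcon
    have h1 : (X : K[X]) ^ (i + 1) ∣ a := dvd_trans (pow_dvd_pow _ (by omega)) hn
    rw [X_pow_dvd_iff] at h1
    have h2 := h1 i (by omega)
    rw [hg, coeff_X_pow_mul' ] at h2
    simp at h2
    exact hgc h2
  -- coprimality
  have hcop : IsCoprime (g * w) ((X : K[X]) ^ (i + 2)) := by
    apply IsCoprime.pow_right
    apply IsCoprime.symm
    rw [Prime.coprime_iff_not_dvd prime_X, X_dvd_iff, mul_coeff_zero]
    have : (w : K[X]).coeff 0 = 2 := by
      rw [coeff_zero_eq_eval_zero, w_eval]; norm_num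
    rw [this]
    exact mul_ne_zero hgc two_ne_zero
  obtain ⟨u, v, huv⟩ := hcop
  obtain ⟨e, he⟩ : ∃ e, e = u * (g * w) := ⟨_, rfl⟩
  have he1 : 1 - e = v * X ^ (i + 2) := by rw [← huv, he]; ring
  have hew : w ∣ e := ⟨u * g, by rw [he]; ring⟩
  have hec : ∀ n, n < i + 2 → e.coeff n = if n = 0 then 1 else 0 := by
    intro n hn
    have : e = 1 - v * X ^ (i + 2) := by rw [← he1]; ring
    rw [this, coeff_sub, coeff_mul_X_pow', if_neg (by omega), sub_zero, coeff_one]
  have heA : e ∈ A S := memA_of_w (by rw [hec 1 (by omega)]; simp) hew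
  obtain ⟨m', j, hm1, hj2, hmi, hmj, hcase⟩ : ∃ m' j : ℕ, 1 ≤ m' ∧ 2 ≤ j ∧ 2 * m' ≤ i ∧ 2 * m' ≤ j ∧
      ((i = 2 * m' ∧ j = i + 1) ∨ (i = 2 * m' + 1 ∧ j = 2 * m')) := by
    rcases Nat.even_or_odd' i with ⟨m', h | h⟩
    · exact ⟨m', i + 1, by omega, by omega, by omega, by omega, Or.inl ⟨h, rfl⟩⟩
    · exact ⟨m', 2 * m', by omega, by omega, by omega, by omega, Or.inr ⟨h, rfl⟩⟩
  obtain ⟨b, hb⟩ : ∃ b, b = (1 - e) + X ^ j * e := ⟨_, rfl⟩
  have hXjw : ∀ p : K[X], X ^ j * e * p ∈ A S := fun p =>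
    memA_of_Xw (dvd_mul_of_dvd_left (dvd_mul_of_dvd_left (pow_dvd_pow _ hj2) _) _)
      (dvd_mul_of_dvd_left (dvd_mul_of_dvd_right hew _) _)
  have h1eA : 1 - e ∈ A S := (A S).sub_mem (A S).one_mem heA
  have hXjeA : X ^ j * e ∈ A S := by simpa using hXjw 1
  have hbA : b ∈ A S := by rw [hb]; exact (A S).add_mem h1eA hXjeA
  refine ⟨⟨b, hbA⟩, m', i, hm1, hmi, hidvd, hmax, ?_, ?_⟩
  · apply le_antisymm
    · rw [sup_le_iff, Ideal.span_singleton_le_iff_mem, Ideal.span_singleton_le_iff_mem, mem_J, mem_J]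
      refine ⟨dvd_trans (pow_dvd_pow _ hmi) hidvd, ?_⟩
      simp only
      rw [hb, he1]
      exact dvd_add (dvd_mul_of_dvd_right (pow_dvd_pow _ (by omega)) _)
        (dvd_mul_of_dvd_left (pow_dvd_pow _ hmj) _)
    · obtain ⟨I, hI⟩ : ∃ I, I = Ideal.span {(⟨a, haA⟩ : A S)} ⊔ Ideal.span {(⟨b, hbA⟩ : A S)} :=
        ⟨_, rfl⟩
      rw [← hI]
      have haI : (⟨a, haA⟩ : A S) ∈ I := by
        rw [hI]; exact Ideal.mem_sup_left (Ideal.mem_span_singleton_self _)
      have hbI : (⟨b, hbA⟩ : A S) ∈ I := by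
        rw [hI]; exact Ideal.mem_sup_right (Ideal.mem_span_singleton_self _)
      -- F2 : 1 - e ∈ I
      have F2 : (⟨1 - e, h1eA⟩ : A S) ∈ I := by
        have h1 : X ^ 2 * w * (v * u * (1 - X ^ j)) ∈ A S :=
          memA_of_Xw ⟨w * (v * u * (1 - X ^ j)), by ring⟩
            ⟨X ^ 2 * (v * u * (1 - X ^ j)), by ring⟩
        have h2 : (⟨1 - e, h1eA⟩ : A S) = ⟨b, hbA⟩ * ⟨1 - e, h1eA⟩ +
            ⟨a, haA⟩ * ⟨_, h1⟩ := by
          apply Subtype.ext
          change 1 - e = b * (1 - e) + a * (X ^ 2 * w * (v * u * (1 - X ^ j)))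
          have h3 : a * (X ^ 2 * w * (v * u * (1 - X ^ j))) = (1 - e) * (e * (1 - X ^ j)) := by
            rw [he1, hg, he]; ring
          rw [h3, hb]; ring
        rw [h2]
        exact I.add_mem (I.mul_mem_right _ hbI) (I.mul_mem_right _ haI)
      -- F1
      have F1 : ∀ (p : K[X]) (hp : X ^ (i + 2) * e * p ∈ A S), (⟨_, hp⟩ : A S) ∈ I := by
        intro p hp
        refine mem_of_eq haI (r := X ^ 2 * w * (u * p))
          (memA_of_Xw ⟨w * (u * p), by ring⟩ ⟨X ^ 2 * (u * p), by ring⟩) ?_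
        simp only
        rw [hg, he]; ring
      have F3' : (⟨X ^ j * e, hXjeA⟩ : A S) ∈ I := by
        have : (⟨X ^ j * e, hXjeA⟩ : A S) = ⟨b, hbA⟩ - ⟨1 - e, h1eA⟩ := by
          apply Subtype.ext
          change X ^ j * e = b - (1 - e)
          rw [hb]; ring
        rw [this]
        exact I.sub_mem hbI F2
      -- for p with e * p ∈ A, X^j e p ∈ I
      have F3 : ∀ (p : K[X]) (_ : e * p ∈ A S), (⟨X ^ j * e * p, hXjw p⟩ : A S) ∈ I := by
        intro p hp
        have : (⟨X ^ j * e * p, hXjw p⟩ : A S) = ⟨X ^ j * e, hXjeA⟩ * ⟨e * p, hp⟩ +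
            ⟨1 - e, h1eA⟩ * ⟨X ^ j * e * p, hXjw p⟩ := by
          apply Subtype.ext
          change X ^ j * e * p = X ^ j * e * (e * p) + (1 - e) * (X ^ j * e * p)
          ring
        rw [this]
        exact I.add_mem (I.mul_mem_right _ F3') (I.mul_mem_right _ F2)
      have heC : ∀ κ : K, e * C κ ∈ A S := fun κ =>
        memA_of_w (by rw [coeff_mul_C, hec 1 (by omega)]; simp) (dvd_mul_of_dvd_left hew _)
      have heX2 : ∀ p : K[X], e * (X ^ 2 * p) ∈ A S := fun p =>
        memA_of_Xw ⟨e * p, by ring⟩ (dvd_mul_of_dvd_left hew _)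
      rintro ⟨f, hfA⟩ hf
      rw [mem_J] at hf
      simp only at hf
      obtain ⟨f1, hf1⟩ := hf
      have hefA : e * f ∈ A S := (A S).mul_mem heA hfA
      suffices hs : (⟨e * f, hefA⟩ : A S) ∈ I by
        have : (⟨f, hfA⟩ : A S) = ⟨e * f, hefA⟩ + ⟨1 - e, h1eA⟩ * ⟨f, hfA⟩ := by
          apply Subtype.ext
          change f = e * f + (1 - e) * f
          ring
        rw [this]
        exact I.add_mem hs (I.mul_mem_right _ F2)
      obtain ⟨κ, hκ⟩ : ∃ κ, κ = f1.coeff 0 / g.coeff 0 := ⟨_, rfl⟩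
      rcases hcase with ⟨hc1, hc2⟩ | ⟨hc1, hc2⟩
      · -- i = 2m', j = i+1
        -- f1 = κ g + X * q
        have h1 : X ∣ f1 - C (f1.coeff 0 / g.coeff 0) * g := by
          rw [X_dvd_iff, coeff_sub, coeff_C_mul, div_mul_cancel₀ _ hgc, sub_self]
        obtain ⟨q, hq⟩ := h1
        have h2 : X ∣ q - C (q.coeff 0) := by
          rw [X_dvd_iff, coeff_sub, coeff_C_zero, sub_self]
        obtain ⟨q2, hq2⟩ := h2
        have hid : e * f = a * (e * C (f1.coeff 0 / g.coeff 0)) + X ^ j * e * C (q.coeff 0) +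
            X ^ (i + 2) * e * q2 := by
          have e1 : f1 = C (f1.coeff 0 / g.coeff 0) * g + X * (C (q.coeff 0) + X * q2) := by
            rw [← hq2, ← add_sub_assoc]
            rw [show C (q.coeff 0) + q - C (q.coeff 0) = q by ring, ← hq]; ring
          calc e * f = e * (X ^ (2 * m') * f1) := by rw [hf1]
            _ = e * (X ^ (2 * m') * (C (f1.coeff 0 / g.coeff 0) * g +
                  X * (C (q.coeff 0) + X * q2))) := by rw [← e1]
            _ = _ := by rw [hg, hc2, ← hc1]; ring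
        have hA3 : X ^ (i + 2) * e * q2 ∈ A S :=
          memA_of_Xw (dvd_mul_of_dvd_left (dvd_mul_of_dvd_left (pow_dvd_pow _ (by omega)) _) _)
            (dvd_mul_of_dvd_left (dvd_mul_of_dvd_right hew _) _)
        have : (⟨e * f, hefA⟩ : A S) = ⟨a, haA⟩ * ⟨_, heC (f1.coeff 0 / g.coeff 0)⟩ +
            ⟨_, hXjw (C (q.coeff 0))⟩ + ⟨_, hA3⟩ := Subtype.ext hid
        rw [this]
        exact I.add_mem (I.add_mem (I.mul_mem_right _ haI) (F3 _ (heC _))) (F1 _ hA3)
      · -- i = 2m'+1, j = 2m'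
        -- f1 = α + X * (κ g) + X^2 q
        have h1 : X ∣ f1 - C (f1.coeff 0) := by
          rw [X_dvd_iff, coeff_sub, coeff_C_zero, sub_self]
        obtain ⟨q, hq⟩ := h1
        have h2 : X ∣ q - C (q.coeff 0 / g.coeff 0) * g := by
          rw [X_dvd_iff, coeff_sub, coeff_C_mul, div_mul_cancel₀ _ hgc, sub_self]
        obtain ⟨q2, hq2⟩ := h2
        have hid : e * f = X ^ j * e * C (f1.coeff 0) + a * (e * C (q.coeff 0 / g.coeff 0)) +
            X ^ j * e * (X ^ 2 * q2) := by
          have e1 : f1 = C (f1.coeff 0) + X * (C (q.coeff 0 / g.coeff 0) * g + X * q2) := by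
            rw [← hq2, add_sub_cancel, ← hq]; ring
          calc e * f = e * (X ^ (2 * m') * f1) := by rw [hf1]
            _ = e * (X ^ (2 * m') * (C (f1.coeff 0) +
                  X * (C (q.coeff 0 / g.coeff 0) * g + X * q2))) := by rw [← e1]
            _ = _ := by rw [hg, hc2, hc1]; ring
        have : (⟨e * f, hefA⟩ : A S) = ⟨_, hXjw (C (f1.coeff 0))⟩ +
            ⟨a, haA⟩ * ⟨_, heC (q.coeff 0 / g.coeff 0)⟩ + ⟨_, hXjw (X ^ 2 * q2)⟩ :=
          Subtype.ext hid
        rw [this]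
        exact I.add_mem (I.add_mem (F3 _ (heC _)) (I.mul_mem_right _ haI)) (F3 _ (heX2 _))
  · intro m hm hmem
    rw [Submodule.mem_sup] at hmem
    obtain ⟨y, hy, z, hz, hyz⟩ := hmem
    rw [Ideal.mem_span_singleton] at hz
    obtain ⟨r, hr⟩ := hz
    rw [mem_J] at hy
    have hyz' : (y : K[X]) + a * (r : K[X]) = b := by
      have := congrArg Subtype.val hyz
      rw [hr] at this
      exact this
    have hy' : ∀ n < 2 * m, (y : K[X]).coeff n = 0 := by
      rw [X_pow_dvd_iff] at hy; exact hy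
    have hbc : ∀ n, n < i + 2 → b.coeff n = if n = j then 1 else 0 := by
      intro n hn
      rw [hb, coeff_add, he1, coeff_mul_X_pow', if_neg (by omega), zero_add, coeff_X_pow_mul']
      by_cases hnj : j ≤ n
      · rw [if_pos hnj, hec _ (by omega)]
        by_cases h : n = j
        · subst h; simp
        · rw [if_neg (by omega), if_neg h]
      · rw [if_neg hnj, if_neg (by omega)]
    have hr1 : (r : K[X]).coeff 1 = 0 := r.2.1
    have hari : ∀ n, (a * (r : K[X])).coeff n =
        if i ≤ n then (g * (r : K[X])).coeff (n - i) else 0 := by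
      intro n
      rw [hg, mul_assoc, coeff_X_pow_mul']
    rcases hcase with ⟨hc1, hc2⟩ | ⟨hc1, hc2⟩
    · have h1 := congrArg (fun p : K[X] => p.coeff i) hyz'
      have h2 := congrArg (fun p : K[X] => p.coeff (i + 1)) hyz'
      simp only [coeff_add] at h1 h2
      rw [hy' i (by omega), hari, if_pos le_rfl, Nat.sub_self, hbc i (by omega),
        if_neg (by omega), zero_add, mul_coeff_zero] at h1
      rw [hy' (i + 1) (by omega), hari, if_pos (by omega), Nat.add_sub_cancel_left,
        hbc (i + 1) (by omega), if_pos (by omega), zero_add, coeff_mul,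
        Finset.Nat.antidiagonal_succ] at h2
      have hr0 : (r : K[X]).coeff 0 = 0 := by
        rcases mul_eq_zero.mp h1 with h | h
        · exact absurd h hgc
        · exact h
      simp [hr1, hr0] at h2
    · have h1 := congrArg (fun p : K[X] => p.coeff j) hyz'
      simp only [coeff_add] at h1
      rw [hy' j (by omega), hari, if_neg (by omega), hbc j (by omega), if_pos rfl] at h1
      simp at h1


theorem root_reply {S : Subring K} (a : A S) (ha0 : a ≠ 0) (c : K) (h0 : c ≠ 0) (h1 : c ≠ 1)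
    (h2 : c ≠ 2) (hc : (a : K[X]).eval c = 0) :
    ∃ b : A S, b ∉ Ideal.span {a} ∧ Ideal.span {a} ⊔ Ideal.span {b} = RingHom.ker (ev S c) := by
  obtain ⟨a, haA⟩ := a
  have ha0' : a ≠ 0 := fun h => ha0 (Subtype.ext h)
  simp only at hc
  obtain ⟨h, hh, hh0⟩ := exists_eq_pow_rootMultiplicity_mul_and_not_dvd a ha0' c
  obtain ⟨s, hs⟩ : ∃ s, s = rootMultiplicity c a := ⟨_, rfl⟩
  rw [← hs] at hh
  have hs1 : 1 ≤ s := by
    rw [hs]
    exact (rootMultiplicity_pos ha0').mpr hc
  have hcop : IsCoprime (h * (X ^ 2 * w)) ((X - C c) ^ (s + 1)) := by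
    apply IsCoprime.pow_right
    apply IsCoprime.symm
    rw [Prime.coprime_iff_not_dvd (prime_X_sub_C c), dvd_iff_isRoot, IsRoot.def, eval_mul,
      eval_mul, w_eval]
    rw [dvd_iff_isRoot, IsRoot.def] at hh0
    simp [hh0, sub_eq_zero, h0, h1, h2]
  obtain ⟨u, v, huv⟩ := hcop
  obtain ⟨e, he⟩ : ∃ e, e = u * (h * (X ^ 2 * w)) := ⟨_, rfl⟩
  have he1 : 1 - e = v * (X - C c) ^ (s + 1) := by rw [← huv, he]; ring
  have heX : ∀ p : K[X], e * p ∈ A S := fun p =>
    memA_of_Xw ⟨u * h * w * p, by rw [he]; ring⟩ ⟨u * h * X ^ 2 * p, by rw [he]; ring⟩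
  have heA : e ∈ A S := by simpa using heX 1
  have h1eA : 1 - e ∈ A S := (A S).sub_mem (A S).one_mem heA
  obtain ⟨b, hb⟩ : ∃ b, b = (1 - e) + e * (X - C c) := ⟨_, rfl⟩
  have hbA : b ∈ A S := by rw [hb]; exact (A S).add_mem h1eA (heX _)
  have hec : e.eval c = 1 := by
    have : e = 1 - v * (X - C c) ^ (s + 1) := by rw [← he1]; ring
    rw [this]; simp
  refine ⟨⟨b, hbA⟩, ?_, ?_⟩
  · intro hmem
    rw [Ideal.mem_span_singleton] at hmem
    obtain ⟨r, hr⟩ := hmem
    have hr' : b = a * (r : K[X]) := congrArg Subtype.val hr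
    -- h divides b and divides e, hence 1
    have hdh : h ∣ 1 := by
      have hb1 : h ∣ b := by rw [hr', hh]; exact ⟨(X - C c) ^ s * (r : K[X]), by ring⟩
      have he2 : h ∣ e := ⟨u * (X ^ 2 * w), by rw [he]; ring⟩
      have : (1 : K[X]) = b + e * (1 - (X - C c)) := by rw [hb]; ring
      rw [this]
      exact dvd_add hb1 (dvd_mul_of_dvd_left he2 _)
    have hunit : IsUnit h := isUnit_of_dvd_one hdh
    obtain ⟨u', hu', hu''⟩ := isUnit_iff.mp hunit
    by_cases hs2 : s = 1
    · have : a.coeff 1 = 0 := haA.1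
      rw [hh, hs2, pow_one, ← hu''] at this
      simp at this
      exact hu'.ne_zero this
    · have hd2 : (X - C c) ^ 2 ∣ b := by
        rw [hr', hh]
        exact dvd_mul_of_dvd_left (dvd_mul_of_dvd_left (pow_dvd_pow _ (by omega)) _) _
      have hd3 : (X - C c) ^ 2 ∣ (X - C c) * e := by
        have : (X - C c) * e = b - v * (X - C c) ^ (s + 1) := by rw [hb, ← he1]; ring
        rw [this]
        exact dvd_sub hd2 (dvd_mul_of_dvd_right (pow_dvd_pow _ (by omega)) _)
      rw [pow_two] at hd3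
      have hd4 : (X - C c) ∣ e := (mul_dvd_mul_iff_left (X_sub_C_ne_zero c)).mp hd3
      rw [dvd_iff_isRoot, IsRoot.def, hec] at hd4
      exact one_ne_zero hd4
  · apply le_antisymm
    · rw [sup_le_iff, Ideal.span_singleton_le_iff_mem, Ideal.span_singleton_le_iff_mem,
        RingHom.mem_ker, RingHom.mem_ker, ev_apply, ev_apply]
      refine ⟨hc, ?_⟩
      simp only
      rw [hb, eval_add, eval_sub, eval_mul, hec]
      simp
    · obtain ⟨I, hI⟩ : ∃ I, I = Ideal.span {(⟨a, haA⟩ : A S)} ⊔ Ideal.span {(⟨b, hbA⟩ : A S)} :=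
        ⟨_, rfl⟩
      rw [← hI]
      have haI : (⟨a, haA⟩ : A S) ∈ I := by
        rw [hI]; exact Ideal.mem_sup_left (Ideal.mem_span_singleton_self _)
      have hbI : (⟨b, hbA⟩ : A S) ∈ I := by
        rw [hI]; exact Ideal.mem_sup_right (Ideal.mem_span_singleton_self _)
      have F2 : (⟨1 - e, h1eA⟩ : A S) ∈ I := by
        have h3 : X ^ 2 * w * (v * (X - C c) * u * (1 - (X - C c))) ∈ A S :=
          memA_of_Xw ⟨w * (v * (X - C c) * u * (1 - (X - C c))), by ring⟩
            ⟨X ^ 2 * (v * (X - C c) * u * (1 - (X - C c))), by ring⟩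
        have h4 : (⟨1 - e, h1eA⟩ : A S) = ⟨b, hbA⟩ * ⟨1 - e, h1eA⟩ +
            ⟨a, haA⟩ * ⟨_, h3⟩ := by
          apply Subtype.ext
          change 1 - e = b * (1 - e) + a * (X ^ 2 * w * (v * (X - C c) * u * (1 - (X - C c))))
          have h5 : a * (X ^ 2 * w * (v * (X - C c) * u * (1 - (X - C c)))) =
              (1 - e) * (e * (1 - (X - C c))) := by
            rw [he1, hh, he]; ring
          rw [h5, hb]; ring
        rw [h4]
        exact I.add_mem (I.mul_mem_right _ hbI) (I.mul_mem_right _ haI)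
      have F3' : (⟨e * (X - C c), heX _⟩ : A S) ∈ I := by
        have : (⟨e * (X - C c), heX _⟩ : A S) = ⟨b, hbA⟩ - ⟨1 - e, h1eA⟩ := by
          apply Subtype.ext
          change e * (X - C c) = b - (1 - e)
          rw [hb]; ring
        rw [this]
        exact I.sub_mem hbI F2
      rintro ⟨f, hfA⟩ hf
      rw [RingHom.mem_ker, ev_apply] at hf
      simp only at hf
      obtain ⟨f1, hf1⟩ := dvd_iff_isRoot.mpr hf
      have hid : (⟨f, hfA⟩ : A S) = ⟨e * (X - C c), heX _⟩ * ⟨e * f1, heX _⟩ +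
          ⟨1 - e, h1eA⟩ * ⟨e * f, heX _⟩ + ⟨1 - e, h1eA⟩ * ⟨f, hfA⟩ := by
        apply Subtype.ext
        change f = e * (X - C c) * (e * f1) + (1 - e) * (e * f) + (1 - e) * f
        rw [hf1]; ring
      rw [hid]
      exact I.add_mem (I.add_mem (I.mul_mem_right _ F3') (I.mul_mem_right _ F2))
        (I.mul_mem_right _ F2)

lemma ker_maximal {S : Subring K} (c : K) (h0 : c ≠ 0) (h1 : c ≠ 1) (h2 : c ≠ 2) :
    (RingHom.ker (ev S c)).IsMaximal :=
  RingHom.ker_isMaximal_of_surjective _ (ev_surj S c h0 h1 h2)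

lemma lose_of_maximal {R : Type*} [CommRing R] {I : Ideal R} (hI : I.IsMaximal) : LoseN 0 I := by
  intro a ha
  rw [Ideal.isMaximal_def] at hI
  apply hI.2
  refine lt_of_le_of_ne le_sup_left ?_
  intro h
  apply ha
  rw [h]
  exact Ideal.mem_sup_right (Ideal.mem_span_singleton_self _)

theorem loseN_J {S : Subring K} : ∀ n m, 1 ≤ m → m ≤ n → LoseN n (J S m) := by
  intro n
  induction n with
  | zero => intro m h1 h2; omega
  | succ n ih =>
    intro m h1 h2 a ha
    by_cases hX : (X : K[X]) ∣ a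
    · right
      have ha0 : a ≠ 0 := by
        rintro rfl
        exact ha (J S m).zero_mem
      obtain ⟨b, m', i, hm', hmi, hia, hmax, hJ, hb⟩ := cusp_reply a ha0 hX
      have him : i < 2 * m := by
        by_contra hcon
        apply ha
        rw [mem_J]
        exact dvd_trans (pow_dvd_pow _ (by omega)) hia
      have heq : J S m ⊔ Ideal.span {a} ⊔ Ideal.span {b} = J S m' := by
        rw [sup_assoc, hJ]
        exact sup_eq_right.mpr (J_anti (by omega))
      refine ⟨b, hb m him, ?_, ?_⟩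
      · rw [heq]; exact J_ne_top hm'
      · rw [heq]; exact ih m' hm' (by omega)
    · left
      have hcop : IsCoprime ((a : K[X]) * w) ((X : K[X]) ^ (2 * m)) := by
        apply IsCoprime.pow_right
        apply IsCoprime.symm
        rw [Prime.coprime_iff_not_dvd prime_X, X_dvd_iff, mul_coeff_zero]
        have : (w : K[X]).coeff 0 = 2 := by
          rw [coeff_zero_eq_eval_zero, w_eval]; norm_num
        rw [this]
        exact mul_ne_zero (fun h => hX (X_dvd_iff.mpr h)) two_ne_zero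
      obtain ⟨u, v, huv⟩ := hcop
      have ha1 : (a : K[X]).coeff 1 = 0 := a.2.1
      have har : (a : K[X]) * (u * w) = 1 - v * X ^ (2 * m) := by rw [← huv]; ring
      have hr1 : (u * w : K[X]).coeff 1 = 0 := by
        have h3 := congrArg (fun p : K[X] => p.coeff 1) har
        simp only [coeff_sub] at h3
        rw [coeff_mul_X_pow', if_neg (by omega), coeff_one, if_neg one_ne_zero, sub_zero,
          coeff_mul, Finset.Nat.antidiagonal_succ] at h3
        simp only [Finset.Nat.antidiagonal_zero, Finset.map_singleton, Finset.sum_cons,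
          Finset.sum_singleton, Function.Embedding.prodMap, Function.Embedding.coeFn_mk,
          Prod.map, Function.Embedding.refl_apply] at h3
        simp [ha1] at h3
        rcases h3 with h3 | h3
        · exact absurd (X_dvd_iff.mpr h3) hX
        · exact h3
      have hrA : (u * w : K[X]) ∈ A S := memA_of_w hr1 ⟨u, by ring⟩
      rw [Ideal.eq_top_iff_one]
      have hid : (1 : A S) = (1 - a * ⟨u * w, hrA⟩) + a * ⟨u * w, hrA⟩ := by ring
      rw [hid]
      refine Ideal.add_mem _ (Ideal.mem_sup_left ?_)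
        (Ideal.mem_sup_right (Ideal.mul_mem_right _ _ (Ideal.mem_span_singleton_self _)))
      rw [mem_J]
      change X ^ (2 * m) ∣ 1 - (a : K[X]) * (u * w)
      rw [har]
      exact ⟨v, by ring⟩

lemma sum_roots (s : Multiset K) (hs : ∀ z ∈ s, z = 1 ∨ z = 2) :
    ∃ n : ℕ, (s.map fun z ↦ 1 / (0 - z)).sum = -(n : K) / 2 ∧ s.card ≤ n := by
  induction s using Multiset.induction_on with
  | empty => exact ⟨0, by simp, by simp⟩
  | cons a s ih =>
    obtain ⟨n, hn1, hn2⟩ := ih (fun z hz => hs z (Multiset.mem_cons_of_mem hz))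
    rcases hs a (Multiset.mem_cons_self a s) with h | h
    · refine ⟨n + 2, ?_, ?_⟩
      · rw [Multiset.map_cons, Multiset.sum_cons, hn1, h]
        push_cast
        ring
      · rw [Multiset.card_cons]; omega
    · refine ⟨n + 1, ?_, ?_⟩
      · rw [Multiset.map_cons, Multiset.sum_cons, hn1, h]
        push_cast
        ring
      · rw [Multiset.card_cons]; omega

lemma exists_root [IsAlgClosed K] {S : Subring K} (hS : (algebraMap ℚ K).range ≤ S) (a : A S)
    (hX : ¬ (X : K[X]) ∣ a) (hu : Ideal.span {a} ≠ ⊤) :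
    ∃ c : K, c ≠ 0 ∧ c ≠ 1 ∧ c ≠ 2 ∧ (a : K[X]).eval c = 0 := by
  by_contra hcon
  push Not at hcon
  have ha00 : (a : K[X]).eval 0 ≠ 0 := by
    rw [← coeff_zero_eq_eval_zero]
    exact fun h => hX (X_dvd_iff.mpr h)
  have ha0 : (a : K[X]) ≠ 0 := by
    intro h
    rw [h] at ha00
    simp at ha00
  have hroots : ∀ z ∈ (a : K[X]).roots, z = 1 ∨ z = 2 := by
    intro z hz
    have hz' : (a : K[X]).eval z = 0 := (mem_roots ha0).mp hz
    by_contra h
    push Not at h
    exact hcon z (fun h0 => ha00 (h0 ▸ hz')) h.1 h.2 hz'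
  obtain ⟨n, hn1, hn2⟩ := sum_roots _ hroots
  have hder := (IsAlgClosed.splits (a : K[X])).eval_derivative_eq_eval_mul_sum ha00
  have hd0 : (derivative (a : K[X])).eval 0 = 0 := by
    rw [← coeff_zero_eq_eval_zero, coeff_derivative]
    have : (a : K[X]).coeff (0 + 1) = 0 := a.2.1
    rw [this, zero_mul]
  rw [hd0, hn1] at hder
  have hn0 : n = 0 := by
    have h3 : (-(n : K) / 2) = 0 := by
      rcases mul_eq_zero.mp hder.symm with h | h
      · exact absurd h ha00
      · exact h
    have h4 : (n : K) = 0 := by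
      field_simp at h3
      simpa using h3
    exact_mod_cast h4
  have hdeg : (a : K[X]).natDegree = 0 := by
    rw [(IsAlgClosed.splits (a : K[X])).natDegree_eq_card_roots]
    omega
  have haC : (a : K[X]) = C ((a : K[X]).coeff 0) := eq_C_of_natDegree_eq_zero hdeg
  obtain ⟨u, hu'⟩ : ∃ u, u = (a : K[X]).coeff 0 := ⟨_, rfl⟩
  rw [← hu'] at haC
  have hu0 : u ≠ 0 := by
    rintro rfl
    rw [C_0] at haC
    exact ha0 haC
  have huQ : u ∈ (algebraMap ℚ K).range := by
    have h5 := a.2.2.2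
    rw [haC, eval_C] at h5
    exact h5
  have huQ' : u⁻¹ ∈ (algebraMap ℚ K).range := by
    obtain ⟨q, hq⟩ := huQ
    exact ⟨q⁻¹, by rw [map_inv₀, hq]⟩
  have hinv : (C u⁻¹ : K[X]) ∈ A S := by
    refine ⟨by rw [coeff_C]; simp, ?_, ?_⟩
    · rw [eval_C]; exact hS huQ'
    · rw [eval_C]; exact huQ'
  apply hu
  rw [Ideal.eq_top_iff_one, Ideal.mem_span_singleton]
  refine ⟨⟨C u⁻¹, hinv⟩, Subtype.ext ?_⟩
  change (1 : K[X]) = (a : K[X]) * C u⁻¹
  rw [haC, ← C_mul, mul_inv_cancel₀ hu0, C_1]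

theorem wins [IsAlgClosed K] {S : Subring K} (hS : (algebraMap ℚ K).range ≤ S) :
    SecondPlayerWins (A S) := by
  apply wins_of
  intro a ha0 hat
  by_cases hX : (X : K[X]) ∣ a
  · obtain ⟨b, m', i, hm', hmi, hia, hmax, hJ, hb⟩ := cusp_reply a ha0 hX
    refine ⟨m', b, ?_, ?_, ?_⟩
    · intro hmem
      have hi1 : 1 ≤ i := by omega
      exact hb i (by omega) (Ideal.mem_sup_right hmem)
    · rw [hJ]; exact J_ne_top hm'
    · rw [hJ]; exact loseN_J m' m' hm' le_rfl
  · obtain ⟨c, h0, h1, h2, hc⟩ := exists_root hS a hX hat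
    obtain ⟨b, hb1, hb2⟩ := root_reply a ha0 c h0 h1 h2 hc
    have hM := ker_maximal (S := S) c h0 h1 h2
    refine ⟨0, b, hb1, ?_, ?_⟩
    · rw [hb2]; exact hM.ne_top
    · rw [hb2]; exact lose_of_maximal hM


/-- elements of the conductor -/
noncomputable def cel (S : Subring K) (p : K[X]) : A S :=
  ⟨X ^ 2 * w * p, memA_of_Xw ⟨w * p, by ring⟩ ⟨X ^ 2 * p, by ring⟩⟩

lemma cel_coe (S : Subring K) (p : K[X]) : (cel S p : K[X]) = X ^ 2 * w * p := rfl

lemma ker0_maximal (S : Subring K) : (RingHom.ker (ev S 0)).IsMaximal := by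
  apply RingHom.ker_isMaximal_of_surjective
  intro y
  refine ⟨⟨w * (C (y / 2) + C (3 * y / 4) * X), memA_of_w ?_ ⟨_, rfl⟩⟩, ?_⟩
  · have hw0 : (w : K[X]).coeff 0 = 2 := by
      rw [coeff_zero_eq_eval_zero, w_eval]; norm_num
    have hw1 : (w : K[X]).coeff 1 = -3 := by
      have : (w : K[X]) = X ^ 2 - C 3 * X + C 2 := by
        unfold w
        rw [show (C (3 : K)) = C 1 + C 2 by rw [← C_add]; norm_num]
        have : (C (2 : K)) = C 1 * C 2 := by rw [← C_mul]; norm_num
        linear_combination -this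
      rw [this]
      simp [coeff_X_pow, coeff_C]
    rw [coeff_mul, Finset.Nat.antidiagonal_succ]
    simp [hw0, hw1]
    ring
  · rw [ev_apply]
    simp only
    rw [eval_mul, w_eval]
    simp
    ring

lemma ker2_maximal (S : Subring K) : (RingHom.ker (ev S 2)).IsMaximal := by
  let ψ : A S →+* (algebraMap ℚ K).fieldRange :=
    (ev S 2).codRestrict (algebraMap ℚ K).fieldRange (fun f => f.2.2.2)
  have hker : RingHom.ker ψ = RingHom.ker (ev S 2) := by
    ext f
    rw [RingHom.mem_ker, RingHom.mem_ker]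
    constructor
    · intro h; exact congrArg Subtype.val h
    · intro h; exact Subtype.ext h
  rw [← hker]
  apply RingHom.ker_isMaximal_of_surjective
  rintro ⟨y, hy⟩
  have hmem : (X ^ 2 * (X - C 1) * C (y / 4) : K[X]) ∈ A S := by
    refine ⟨coeff_one_of_sq ⟨(X - C 1) * C (y / 4), by ring⟩, ?_, ?_⟩
    · have : (X ^ 2 * (X - C 1) * C (y / 4) : K[X]).eval 1 = 0 := by simp
      rw [this]; exact S.zero_mem
    · have : (X ^ 2 * (X - C 1) * C (y / 4) : K[X]).eval 2 = y := by simp; ring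
      rw [this]; exact hy
  refine ⟨⟨_, hmem⟩, Subtype.ext ?_⟩
  change (X ^ 2 * (X - C 1) * C (y / 4) : K[X]).eval 2 = y
  simp
  ring

lemma max_of_ker_le {S : Subring K} {q : Ideal (A S)} (hq : q.IsPrime) {I : Ideal (A S)}
    (hI : I.IsMaximal) (h : I ≤ q) : q.IsMaximal := by
  have := hI.eq_of_le hq.ne_top h
  rw [← this]; exact hI

theorem dichotomy [IsAlgClosed K] {S : Subring K} {q : Ideal (A S)} (hq : q.IsPrime)
    (hq0 : q ≠ ⊥) : q.IsMaximal ∨ RingHom.ker (ev S 1) ≤ q := by
  by_cases hc : ∀ p, cel S p ∈ q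
  · have hC4 : (4 : K[X]) * C (1 / 4) = 1 := by
      rw [show (4 : K[X]) = C 4 from (map_ofNat C 4).symm, ← C_mul]; simp
    -- idempotents modulo the conductor
    have hm1 : (-(X ^ 2 * (X - C 2)) : K[X]) ∈ A S := by
      refine ⟨coeff_one_of_sq ⟨-(X - C 2), by ring⟩, ?_, ?_⟩
      · have : (-(X ^ 2 * (X - C 2)) : K[X]).eval 1 = 1 := by simp; ring
        rw [this]; exact S.one_mem
      · have : (-(X ^ 2 * (X - C 2)) : K[X]).eval 2 = 0 := by simp
        rw [this]; exact Subring.zero_mem _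
    have hm2 : (X ^ 2 * (X - C 1) * C (1 / 4) : K[X]) ∈ A S := by
      refine ⟨coeff_one_of_sq ⟨(X - C 1) * C (1 / 4), by ring⟩, ?_, ?_⟩
      · have : (X ^ 2 * (X - C 1) * C (1 / 4) : K[X]).eval 1 = 0 := by simp
        rw [this]; exact S.zero_mem
      · have : (X ^ 2 * (X - C 1) * C (1 / 4) : K[X]).eval 2 = 1 := by simp; norm_num
        rw [this]; exact Subring.one_mem _
    have hm0e : (1 - (-(X ^ 2 * (X - C 2))) - X ^ 2 * (X - C 1) * C (1 / 4) : K[X]) =
        w * (2 + 3 * X) * C (1 / 4) := by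
      unfold w
      rw [show (C (2 : K)) = 2 from map_ofNat C 2, show (C (1 : K)) = 1 by simp]
      linear_combination (-1 - X ^ 2 * (X - 2)) * hC4
    have hm0 : (1 - (-(X ^ 2 * (X - C 2))) - X ^ 2 * (X - C 1) * C (1 / 4) : K[X]) ∈ A S :=
      (A S).sub_mem ((A S).sub_mem (A S).one_mem hm1) hm2
    by_cases h1 : (⟨_, hm1⟩ : A S) ∈ q
    · left
      by_cases h2 : (⟨_, hm2⟩ : A S) ∈ q
      · -- then e0 ∉ q
        have h0 : (⟨_, hm0⟩ : A S) ∉ q := by
          intro h0
          apply hq.ne_top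
          rw [Ideal.eq_top_iff_one]
          have : (1 : A S) = ⟨_, hm0⟩ + ⟨_, hm1⟩ + ⟨_, hm2⟩ := by
            apply Subtype.ext
            change (1 : K[X]) = (1 - (-(X ^ 2 * (X - C 2))) - X ^ 2 * (X - C 1) * C (1 / 4)) +
              (-(X ^ 2 * (X - C 2))) + X ^ 2 * (X - C 1) * C (1 / 4)
            ring
          rw [this]
          exact q.add_mem (q.add_mem h0 h1) h2
        refine max_of_ker_le hq (ker0_maximal S) ?_
        rintro ⟨f, hf⟩ hf0
        rw [RingHom.mem_ker, ev_apply] at hf0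
        have hdvd : (X : K[X]) ^ 2 ∣ f := by
          rw [X_pow_dvd_iff]
          intro d hd
          interval_cases d
          · rw [coeff_zero_eq_eval_zero]; exact hf0
          · exact hf.1
        obtain ⟨f', rfl⟩ := hdvd
        have h3 : (⟨_, hf⟩ : A S) * ⟨_, hm0⟩ ∈ q := by
          have : (⟨_, hf⟩ : A S) * ⟨_, hm0⟩ = cel S (f' * (2 + 3 * X) * C (1 / 4)) := by
            apply Subtype.ext
            change X ^ 2 * f' *
              (1 - (-(X ^ 2 * (X - C 2))) - X ^ 2 * (X - C 1) * C (1 / 4)) = _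
            rw [hm0e, cel_coe]; ring
          rw [this]; exact hc _
        exact (hq.mem_or_mem h3).resolve_right h0
      · refine max_of_ker_le hq (ker2_maximal S) ?_
        rintro ⟨f, hf⟩ hf0
        rw [RingHom.mem_ker, ev_apply] at hf0
        obtain ⟨f', hf'⟩ := dvd_iff_isRoot.mpr hf0
        simp only at hf'
        have h3 : (⟨f, hf⟩ : A S) * ⟨_, hm2⟩ ∈ q := by
          have : (⟨f, hf⟩ : A S) * ⟨_, hm2⟩ = cel S (f' * C (1 / 4)) := by
            apply Subtype.ext
            change f * (X ^ 2 * (X - C 1) * C (1 / 4)) = _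
            rw [hf', cel_coe, w]; ring
          rw [this]; exact hc _
        exact (hq.mem_or_mem h3).resolve_right h2
    · right
      rintro ⟨f, hf⟩ hf0
      rw [RingHom.mem_ker, ev_apply] at hf0
      obtain ⟨f', hf'⟩ := dvd_iff_isRoot.mpr hf0
      simp only at hf'
      have h3 : (⟨f, hf⟩ : A S) * ⟨_, hm1⟩ ∈ q := by
        have : (⟨f, hf⟩ : A S) * ⟨_, hm1⟩ = cel S (-f') := by
          apply Subtype.ext
          change f * (-(X ^ 2 * (X - C 2))) = _
          rw [hf', cel_coe, w]; ring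
        rw [this]; exact hc _
      exact (hq.mem_or_mem h3).resolve_right h1
  · push Not at hc
    obtain ⟨p, hp⟩ := hc
    obtain ⟨f, hfq, hf0⟩ := Submodule.exists_mem_ne_zero_of_ne_bot hq0
    have hf0' : (f : K[X]) ≠ 0 := fun h => hf0 (Subtype.ext h)
    have hprod : ∀ s : Multiset K, cel S (p * (s.map fun z => X - C z).prod) ∈ q →
        ∃ z ∈ s, cel S (p * (X - C z)) ∈ q := by
      intro s
      induction s using Multiset.induction_on with
      | empty =>
        intro h
        rw [Multiset.map_zero, Multiset.prod_zero, mul_one] at h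
        exact absurd h hp
      | cons z s ih =>
        intro h
        have h3 : cel S (p * (X - C z)) * cel S (p * (s.map fun z => X - C z).prod) ∈ q := by
          have : cel S (p * (X - C z)) * cel S (p * (s.map fun z => X - C z).prod) =
              cel S p * cel S (p * ((z ::ₘ s).map fun z => X - C z).prod) := by
            apply Subtype.ext
            rw [Subring.coe_mul, Subring.coe_mul, cel_coe, cel_coe, cel_coe, cel_coe,
              Multiset.map_cons, Multiset.prod_cons]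
            ring
          rw [this]
          exact q.mul_mem_left _ h
        rcases hq.mem_or_mem h3 with h4 | h4
        · exact ⟨z, Multiset.mem_cons_self z s, h4⟩
        · obtain ⟨y, hy, hy2⟩ := ih h4
          exact ⟨y, Multiset.mem_cons_of_mem hy, hy2⟩
    obtain ⟨z, -, hz⟩ := hprod (f : K[X]).roots (by
      have h3 : cel S (p * ((f : K[X]).roots.map fun z => X - C z).prod) =
          cel S (p * C ((f : K[X]).leadingCoeff)⁻¹) * f := by
        apply Subtype.ext
        rw [Subring.coe_mul, cel_coe, cel_coe]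
        have h4 := (IsAlgClosed.splits (f : K[X])).eq_prod_roots
        have h5 : (C ((f : K[X]).leadingCoeff)⁻¹ : K[X]) * f =
            ((f : K[X]).roots.map fun z => X - C z).prod := by
          calc (C ((f : K[X]).leadingCoeff)⁻¹ : K[X]) * f =
              C ((f : K[X]).leadingCoeff)⁻¹ * (C (f : K[X]).leadingCoeff *
                ((f : K[X]).roots.map fun z => X - C z).prod) := by rw [← h4]
            _ = _ := by
              rw [← mul_assoc, ← C_mul, inv_mul_cancel₀ (leadingCoeff_ne_zero.mpr hf0'), C_1,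
                one_mul]
        rw [← h5]; ring
      rw [h3]
      exact q.mul_mem_left _ hfq)
    have hle : RingHom.ker (ev S z) ≤ q := by
      rintro ⟨h, hh⟩ hh0
      rw [RingHom.mem_ker, ev_apply] at hh0
      obtain ⟨h', hh'⟩ := dvd_iff_isRoot.mpr hh0
      simp only at hh'
      have h3 : cel S p * cel S p * (⟨h, hh⟩ : A S) ∈ q := by
        have : cel S p * cel S p * (⟨h, hh⟩ : A S) = cel S (p * (X - C z)) * cel S (p * h') := by
          apply Subtype.ext
          change X ^ 2 * w * p * (X ^ 2 * w * p) * h =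
            X ^ 2 * w * (p * (X - C z)) * (X ^ 2 * w * (p * h'))
          rw [hh']; ring
        rw [this]
        exact q.mul_mem_right _ hz
      rcases hq.mem_or_mem h3 with h4 | h4
      · rcases hq.mem_or_mem h4 with h5 | h5 <;> exact absurd h5 hp
      · exact h4
    by_cases hz1 : z = 1
    · right; rw [← hz1]; exact hle
    · left
      by_cases hz0 : z = 0
      · subst hz0; exact max_of_ker_le hq (ker0_maximal S) hle
      by_cases hz2 : z = 2
      · subst hz2; exact max_of_ker_le hq (ker2_maximal S) hle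
      · exact max_of_ker_le hq (ker_maximal z hz0 hz1 hz2) hle

/-- the surjection onto `S` -/
noncomputable def phi (S : Subring K) : A S →+* S := (ev S 1).codRestrict S (fun f => f.2.2.1)

lemma phi_surj (S : Subring K) : Function.Surjective (phi S) := by
  rintro ⟨y, hy⟩
  have hmem : (-(X ^ 2 * (X - C 2)) * C y : K[X]) ∈ A S := by
    refine ⟨coeff_one_of_sq ⟨-(X - C 2) * C y, by ring⟩, ?_, ?_⟩
    · have : (-(X ^ 2 * (X - C 2)) * C y : K[X]).eval 1 = y := by simp; ring
      rw [this]; exact hy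
    · have : (-(X ^ 2 * (X - C 2)) * C y : K[X]).eval 2 = 0 := by simp
      rw [this]; exact Subring.zero_mem _
  refine ⟨⟨_, hmem⟩, Subtype.ext ?_⟩
  change (-(X ^ 2 * (X - C 2)) * C y : K[X]).eval 1 = y
  simp
  ring

lemma ker_phi (S : Subring K) : RingHom.ker (phi S) = RingHom.ker (ev S 1) := by
  ext f
  rw [RingHom.mem_ker, RingHom.mem_ker]
  constructor
  · intro h; exact congrArg Subtype.val h
  · intro h; exact Subtype.ext h

theorem krull [IsAlgClosed K] (S : Subring K) : ringKrullDim (A S) = ringKrullDim S + 1 := by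
  apply le_antisymm
  · have hS0 : (0 : WithBot ℕ∞) ≤ ringKrullDim S := ringKrullDim_nonneg_of_nontrivial
    unfold ringKrullDim
    rw [Order.krullDim]
    apply iSup_le
    intro p
    by_cases hl : p.length ≤ 1
    · have h1 : (p.length : WithBot ℕ∞) ≤ 1 := by exact_mod_cast hl
      have h2 : (0 : WithBot ℕ∞) + 1 ≤ ringKrullDim S + 1 := by gcongr
      rw [zero_add] at h2
      exact h1.trans h2
    · push Not at hl
      obtain ⟨l, hl'⟩ : ∃ l, p.length = l + 2 := ⟨p.length - 2, by omega⟩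
      have hstep : ∀ i : ℕ, (hi : i + 1 < p.length + 1) →
          p.toFun ⟨i, by omega⟩ < p.toFun ⟨i + 1, hi⟩ := by
        intro i hi
        exact p.step ⟨i, by omega⟩
      have h01 := hstep 0 (by omega)
      have h12 := hstep 1 (by omega)
      have hker : RingHom.ker (ev S 1) ≤ (p.toFun ⟨1, by omega⟩).asIdeal := by
        rcases dichotomy (p.toFun ⟨1, by omega⟩).isPrime (by
          intro h
          have h3 : (p.toFun ⟨0, by omega⟩).asIdeal < (p.toFun ⟨1, by omega⟩).asIdeal := h01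
          have h4 : (p.toFun ⟨0 + 1, by omega⟩).asIdeal = ⊥ := h
          change _ < (p.toFun ⟨0 + 1, by omega⟩).asIdeal at h3
          rw [h4] at h3
          exact not_lt_bot h3) with h | h
        · exfalso
          have h3 : (p.toFun ⟨1, by omega⟩).asIdeal < (p.toFun ⟨1 + 1, by omega⟩).asIdeal := h12
          have h4 := h.eq_of_le (p.toFun ⟨1 + 1, by omega⟩).isPrime.ne_top h3.le
          exact absurd h4 h3.ne
        · exact h
      have hmono : ∀ i : ℕ, (hi : i + 1 < p.length + 1) →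
          RingHom.ker (ev S 1) ≤ (p.toFun ⟨i + 1, hi⟩).asIdeal := by
        intro i
        induction i with
        | zero => intro hi; exact hker
        | succ i ih =>
          intro hi
          have h3 : (p.toFun ⟨i + 1, by omega⟩).asIdeal < (p.toFun ⟨i + 1 + 1, hi⟩).asIdeal :=
            hstep (i + 1) hi
          exact (ih (by omega)).trans h3.le
      let p' : LTSeries (PrimeSpectrum.zeroLocus (R := A S) (RingHom.ker (phi S))) :=
        { length := l + 1
          toFun := fun i => ⟨p.toFun ⟨i.1 + 1, by have := i.2; omega⟩, by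
            rw [PrimeSpectrum.mem_zeroLocus, ker_phi]
            exact hmono _ _⟩
          step := fun i => hstep (i.1 + 1) (by have := i.2; omega) }
      have h5 : ((l + 1 : ℕ) : WithBot ℕ∞) ≤
          Order.krullDim (PrimeSpectrum.zeroLocus (R := A S) (RingHom.ker (phi S))) :=
        Order.LTSeries.length_le_krullDim p'
      rw [← ringKrullDim_quotient, ringKrullDim_eq_of_ringEquiv
        (RingHom.quotientKerEquivOfSurjective (phi_surj S))] at h5
      rw [hl']
      have h6 : ((l + 2 : ℕ) : WithBot ℕ∞) = ((l + 1 : ℕ) : WithBot ℕ∞) + 1 := by push_cast; ring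
      rw [h6]
      change _ ≤ ringKrullDim S + 1
      gcongr
  · have hr0 : cel S 1 ≠ 0 := by
      intro h
      have h1 : (X ^ 2 * w * 1 : K[X]) = 0 := congrArg Subtype.val h
      have h2 : (X ^ 2 * w * 1 : K[X]).eval 3 = 0 := by rw [h1]; simp
      rw [eval_mul, eval_mul, w_eval] at h2
      simp at h2
      norm_num at h2
    have h1 := ringKrullDim_quotient_succ_le_of_nonZeroDivisor
      (mem_nonZeroDivisors_of_ne_zero hr0)
    refine le_trans ?_ h1
    gcongr
    have hle : ∀ a ∈ Ideal.span {cel S 1}, phi S a = 0 := by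
      intro a ha
      rw [← RingHom.mem_ker]
      have : Ideal.span {cel S 1} ≤ RingHom.ker (phi S) := by
        rw [Ideal.span_singleton_le_iff_mem, ker_phi, RingHom.mem_ker, ev_apply, cel_coe, eval_mul,
          eval_mul, w_eval_one]
        simp
      exact this ha
    apply ringKrullDim_le_of_surjective (Ideal.Quotient.lift (Ideal.span {cel S 1}) (phi S) hle)
    intro y
    obtain ⟨x, hx⟩ := phi_surj S y
    exact ⟨Ideal.Quotient.mk _ x, by rw [Ideal.Quotient.lift_mk]; exact hx⟩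

end Ring

/-- **Main result.** For every `n` there is a commutative ring of Krull dimension `n` on which the
second player has a winning strategy in the Ideal Chomp game. -/
theorem result : ∀ n : ℕ, ∃ (R : Type) (_ : CommRing R), ringKrullDim R = n ∧
    SecondPlayerWins R := by
  intro n
  rcases n with _ | m
  · refine ⟨ℚ, inferInstance, ?_, ?_⟩
    · simp
    · apply wins_of
      intro a ha hat
      exfalso
      apply hat
      rw [Ideal.span_singleton_eq_top]
      exact isUnit_iff_ne_zero.mpr ha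
  · let P := MvPolynomial (Fin m) ℚ
    let F := FractionRing P
    let K := AlgebraicClosure F
    let ι : P →+* K := (algebraMap F K).comp (algebraMap P F)
    have hι : Function.Injective ι :=
      (algebraMap F K).injective.comp (IsFractionRing.injective P F)
    have : CharZero F := by
      let _ : Algebra ℚ F := ((algebraMap P F).comp (algebraMap ℚ P)).toAlgebra
      exact algebraRat.charZero F
    have : CharZero K := charZero_of_injective_algebraMap (algebraMap F K).injective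
    let S : Subring K := ι.range
    have hS : (algebraMap ℚ K).range ≤ S := by
      rintro x ⟨q, rfl⟩
      refine ⟨algebraMap ℚ P q, ?_⟩
      have : (ι.comp (algebraMap ℚ P)) = algebraMap ℚ K := Subsingleton.elim _ _
      rw [← this]; rfl
    refine ⟨A S, inferInstance, ?_, wins hS⟩
    rw [krull S]
    have h1 : ringKrullDim S = ringKrullDim P :=
      (ringKrullDim_eq_of_ringEquiv (RingEquiv.ofBijective ι.rangeRestrict
        ⟨fun x y h => hι (congrArg Subtype.val h), ι.rangeRestrict_surjective⟩)).symm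
    rw [h1, MvPolynomial.ringKrullDim_of_isNoetherianRing]
    simp

end Pool.Agent.Results.MP_ba75bf_co.IdealChomp
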